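import Pool.Agent.U610.PR.Sing

/-!
Points of a product of atomless measures on the circle are algebraically independent.
-/

set_option autoImplicit false

open MeasureTheory Filter Topology Set

namespace Pool.Agent.U610.PR

open MvPolynomial

lemma measurable_evalφ {σ : Type*} {φ : σ → UnitAddCircle → ℝ}
    (hφ : ∀ i, Measurable (φ i)) (g : MvPolynomial σ ℝ) :
    Measurable fun x : σ → UnitAddCircle => eval (fun i => φ i (x i)) g := by
  simp only [MvPolynomial.eval_eq]
  refine Finset.measurable_sum _ fun n _ => ?_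
  refine Measurable.const_mul ?_ _
  refine Finset.measurable_prod _ fun i _ => ?_
  exact ((hφ i).comp (measurable_pi_apply i)).pow_const _

/-- the zero set of a nonzero polynomial is null for a product of atomless measures -/
lemma null_zero (n : ℕ) : ∀ (μ : Fin n → Measure UnitAddCircle) [∀ i, SigmaFinite (μ i)]
    (_ : ∀ i x, μ i {x} = 0) (φ : Fin n → UnitAddCircle → ℝ) (_ : ∀ i, Measurable (φ i))
    (_ : ∀ i, Function.Injective (φ i)) (g : MvPolynomial (Fin n) ℝ) (_ : g ≠ 0),
    Measure.pi μ {x | eval (fun i => φ i (x i)) g = 0} = 0 := by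
  induction n with
  | zero =>
    intro μ _ _ φ _ _ g hg
    have h : {x : Fin 0 → UnitAddCircle | eval (fun i => φ i (x i)) g = 0} = ∅ := by
      rw [Set.eq_empty_iff_forall_notMem]
      intro x hx
      apply hg
      rw [eq_C_of_isEmpty g] at hx ⊢
      have hx' : eval (fun i => φ i (x i)) (C (coeff 0 g)) = 0 := hx
      rw [eval_C] at hx'
      rw [hx', C_0]
    rw [h, measure_empty]
  | succ n ih =>
    intro μ _ hna φ hφ hinj g hg
    set e := MeasurableEquiv.piFinSuccAbove (fun _ : Fin (n + 1) => UnitAddCircle) 0 with he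
    have hmp := measurePreserving_piFinSuccAbove (α := fun _ : Fin (n + 1) => UnitAddCircle) μ 0
    set S : Set (UnitAddCircle × (Fin n → UnitAddCircle)) :=
      {z | eval (fun i => φ i ((Fin.cons z.1 z.2 : Fin (n + 1) → UnitAddCircle) i)) g = 0} with hS
    have hSm : MeasurableSet S := by
      have h1 : Measurable fun z : UnitAddCircle × (Fin n → UnitAddCircle) =>
          eval (fun i => φ i ((Fin.cons z.1 z.2 : Fin (n + 1) → UnitAddCircle) i)) g := by
        refine (measurable_evalφ hφ g).comp ?_
        refine measurable_pi_lambda _ fun i => ?_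
        refine Fin.cases ?_ (fun j => ?_) i
        · simpa using measurable_fst
        · simp only [Fin.cons_succ]
          have h3 : Measurable fun c : UnitAddCircle × (Fin n → UnitAddCircle) => c.2 :=
            measurable_snd
          exact (measurable_pi_apply j).comp h3
      exact h1 (measurableSet_singleton 0)
    have hpre : {x : Fin (n + 1) → UnitAddCircle | eval (fun i => φ i (x i)) g = 0} =
        e ⁻¹' S := by
      ext x
      have h1 : (Fin.cons (e x).1 (e x).2 : Fin (n + 1) → UnitAddCircle) = x := by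
        funext i
        refine Fin.cases ?_ (fun j => ?_) i
        · rfl
        · rfl
      simp only [Set.mem_preimage, Set.mem_ofPred_eq, hS, h1]
    rw [hpre, hmp.measure_preimage hSm.nullMeasurableSet]
    -- swap the two factors
    have hsw : ((μ 0).prod (Measure.pi fun j : Fin n => μ (Fin.succAbove 0 j))) S =
        ((Measure.pi fun j : Fin n => μ (Fin.succAbove 0 j)).prod (μ 0)) (Prod.swap ⁻¹' S) := by
      rw [← Measure.prod_swap, Measure.map_apply measurable_swap hSm]
    rw [hsw]
    refine Measure.measure_prod_null_of_ae_null (measurable_swap hSm) ?_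
    -- a nonzero coefficient
    set G := finSuccEquiv ℝ n g with hG
    have hG0 : G ≠ 0 := by
      rw [hG]
      exact (map_ne_zero_iff _ (finSuccEquiv ℝ n).injective).2 hg
    obtain ⟨j, hj⟩ : ∃ j, G.coeff j ≠ 0 := by
      by_contra hcon
      push Not at hcon
      exact hG0 (Polynomial.ext fun j => by rw [hcon j, Polynomial.coeff_zero])
    have hae := ih (fun j => μ (Fin.succAbove 0 j)) (fun i x => hna _ x)
      (fun j => φ (Fin.succ j)) (fun j => hφ _) (fun j => hinj _) (G.coeff j) hj
    have hae2 : ∀ᵐ x' ∂(Measure.pi fun j : Fin n => μ (Fin.succAbove 0 j)),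
        eval (fun i => φ (Fin.succ i) (x' i)) (G.coeff j) ≠ 0 := by
      rw [ae_iff]
      simpa using hae
    filter_upwards [hae2] with x' hx'
    show (μ 0) (Prod.mk x' ⁻¹' (Prod.swap ⁻¹' S)) = 0
    set F : Polynomial ℝ := Polynomial.map (eval fun i => φ (Fin.succ i) (x' i)) G with hF
    have hF0 : F ≠ 0 := by
      intro h
      apply hx'
      have h2 : F.coeff j = 0 := by rw [h, Polynomial.coeff_zero]
      rw [hF, Polynomial.coeff_map] at h2
      exact h2
    have hsub : Prod.mk x' ⁻¹' (Prod.swap ⁻¹' S) ⊆ φ 0 ⁻¹' (F.roots.toFinset : Set ℝ) := by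
      intro x0 hx0
      have h1 : eval (fun i => φ i ((Fin.cons x0 x' : Fin (n + 1) → UnitAddCircle) i)) g = 0 := hx0
      have h2 : (fun i => φ i ((Fin.cons x0 x' : Fin (n + 1) → UnitAddCircle) i)) =
          (Fin.cons (φ 0 x0) (fun i => φ (Fin.succ i) (x' i)) : Fin (n + 1) → ℝ) := by
        funext i
        refine Fin.cases ?_ (fun j => ?_) i
        · rfl
        · rfl
      rw [h2, eval_eq_eval_mv_eval'] at h1
      simp only [Set.mem_preimage, Finset.mem_coe, Multiset.mem_toFinset]
      exact (Polynomial.mem_roots hF0).2 h1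
    have hfin : (φ 0 ⁻¹' (F.roots.toFinset : Set ℝ)).Countable :=
      ((Finset.finite_toSet _).preimage (hinj 0).injOn).countable
    refine measure_mono_null hsub ?_
    have h3 := (measure_biUnion_null_iff (μ := μ 0) hfin (s := fun x => {x})).2
      fun x _ => hna 0 x
    rwa [Set.biUnion_of_singleton] at h3

/-- **Products of atomless measures have algebraically independent points.** -/
theorem independent_pi {n : ℕ} (μ : Fin n → Measure UnitAddCircle) [∀ i, SigmaFinite (μ i)]
    (hna : ∀ i x, μ i {x} = 0) :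
    ∀ᵐ x ∂(Measure.pi μ), ∀ y : Fin n → ℝ, (∀ i, ((y i : ℝ) : UnitAddCircle) = x i) →
      AlgebraicIndependent ℚ y := by
  have h1 : ∀ (k : Fin n → ℤ) (g : MvPolynomial (Fin n) ℚ), g ≠ 0 →
      ∀ᵐ x ∂(Measure.pi μ), eval (fun i => Pool.Agent.U610.AR.rp (x i) + k i)
        (g.map (algebraMap ℚ ℝ)) ≠ 0 := by
    intro k g hg
    have h2 := null_zero n μ hna (fun i x => Pool.Agent.U610.AR.rp x + k i)
      (fun i => Pool.Agent.U610.AR.meas_rp.add_const _) (fun i x x' h => by
        have h3 : Pool.Agent.U610.AR.rp x = Pool.Agent.U610.AR.rp x' := by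
          simpa using h
        rw [← Pool.Agent.U610.AR.coe_rp x, ← Pool.Agent.U610.AR.coe_rp x', h3])
      (g.map (algebraMap ℚ ℝ)) (by
        rw [Ne, ← map_zero (MvPolynomial.map (algebraMap ℚ ℝ))]
        exact fun h => hg (MvPolynomial.map_injective _ (algebraMap ℚ ℝ).injective h))
    rw [ae_iff]
    simpa using h2
  have hcount : Countable (MvPolynomial (Fin n) ℚ) := by
    have h3 : (Set.univ : Set (MvPolynomial (Fin n) ℚ)).Countable := by
      refine (Set.countable_range (fun g : (Fin n →₀ ℕ) →₀ ℚ =>
        g.sum fun s c => (monomial s c : MvPolynomial (Fin n) ℚ))).mono ?_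
      intro f _
      refine ⟨Finsupp.onFinset f.support (fun s => f.coeff s)
        (fun n hn => mem_support_iff.2 hn), ?_⟩
      have h := Finsupp.onFinset_sum (s := f.support) (f := fun s => f.coeff s)
        (g := fun s c => (monomial s c : MvPolynomial (Fin n) ℚ))
        (fun n hn => mem_support_iff.2 hn) (fun n => by simp)
      refine h.trans ?_
      exact f.support_sum_monomial_coeff
    exact Set.countable_univ_iff.1 h3
  have h2 : ∀ᵐ x ∂(Measure.pi μ), ∀ (k : Fin n → ℤ) (g : MvPolynomial (Fin n) ℚ), g ≠ 0 →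
      eval (fun i => Pool.Agent.U610.AR.rp (x i) + k i) (g.map (algebraMap ℚ ℝ)) ≠ 0 := by
    rw [ae_all_iff]
    intro k
    rw [ae_all_iff]
    intro g
    by_cases hg : g = 0
    · exact Filter.Eventually.of_forall fun x h => absurd hg h
    · filter_upwards [h1 k g hg] with x hx _ using hx
  filter_upwards [h2] with x hx y hy
  have hn : ∀ i, ∃ m : ℤ, y i = Pool.Agent.U610.AR.rp (x i) + m := by
    intro i
    have h2 : ((y i - Pool.Agent.U610.AR.rp (x i) : ℝ) : UnitAddCircle) = 0 := by
      rw [AddCircle.coe_sub, hy i, Pool.Agent.U610.AR.coe_rp, sub_self]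
    obtain ⟨m, hm⟩ := (AddCircle.coe_eq_zero_iff (1 : ℝ)).1 h2
    refine ⟨m, ?_⟩
    rw [zsmul_eq_mul, mul_one] at hm
    linarith
  choose k hk using hn
  have hyk : y = fun i => Pool.Agent.U610.AR.rp (x i) + k i := funext hk
  rw [algebraicIndependent_iff]
  intro g hg
  by_contra hg0
  refine hx k g hg0 ?_
  rw [← hyk, eval_map]
  exact hg

end Pool.Agent.U610.PR
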