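import Mathlib

/-!
Polynomials with real coefficients and a `ℚ`-linear functional on the coefficients: if the values of
a real polynomial `f` at infinitely many points `M y - l`, `M` and `l` integral and `M y - l`
bounded, lie in a rational subspace `V` of the line and the `y i` are algebraically independent, then
all the coefficients and all the values `f (a y + b)`, `a` and `b` rational, lie in `V`.
-/

set_option autoImplicit false

open Filter Topology

namespace Pool.Agent.U610.PR

open MvPolynomial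

variable {σ : Type*}

/-- apply a `ℚ`-linear functional to the coefficients -/
noncomputable def cm (u : ℝ →ₗ[ℚ] ℚ) (f : MvPolynomial σ ℝ) : MvPolynomial σ ℚ :=
  ∑ n ∈ f.support, monomial n (u (f.coeff n))

lemma coeff_cm (u : ℝ →ₗ[ℚ] ℚ) (f : MvPolynomial σ ℝ) (n : σ →₀ ℕ) :
    (cm u f).coeff n = u (f.coeff n) := by
  classical
  unfold cm
  rw [coeff_sum]
  simp only [coeff_monomial]
  rw [Finset.sum_ite_eq']
  split_ifs with h
  · rfl
  · rw [notMem_support_iff.1 h, map_zero]

lemma prod_cast (z : σ → ℚ) (n : σ →₀ ℕ) :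
    (((n.prod fun i e => z i ^ e) : ℚ) : ℝ) = n.prod fun i e => (z i : ℝ) ^ e := by
  simp [Finsupp.prod]

lemma eval_cm (u : ℝ →ₗ[ℚ] ℚ) (f : MvPolynomial σ ℝ) (z : σ → ℚ) :
    eval z (cm u f) = u (eval (fun i => (z i : ℝ)) f) := by
  unfold cm
  rw [map_sum]
  conv_rhs => rw [f.as_sum, map_sum, map_sum]
  refine Finset.sum_congr rfl fun n _ => ?_
  rw [eval_monomial, eval_monomial, ← prod_cast z n, mul_comm (f.coeff n), ← Rat.smul_def,
    map_smul, smul_eq_mul, mul_comm]

/-- a functional which separates a point from a rational subspace -/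
lemma exists_functional (V : Submodule ℚ ℝ) {c : ℝ} (hc : c ∉ V) :
    ∃ u : ℝ →ₗ[ℚ] ℚ, (∀ v ∈ V, u v = 0) ∧ u c ≠ 0 := by
  obtain ⟨u, h1, h2⟩ := Submodule.exists_dual_map_eq_bot_of_notMem hc inferInstance
  refine ⟨u, fun v hv => ?_, h1⟩
  have : u v ∈ V.map u := Submodule.mem_map_of_mem hv
  rw [h2] at this
  simpa using this

/-- the polynomial `f (y X₀ - X)` -/
noncomputable def sb (y : σ → ℝ) (f : MvPolynomial σ ℝ) : MvPolynomial (Option σ) ℝ :=
  bind₁ (fun i => C (y i) * X none - X (some i)) f

lemma eval_sb (y : σ → ℝ) (f : MvPolynomial σ ℝ) (z : Option σ → ℝ) :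
    eval z (sb y f) = eval (fun i => y i * z none - z (some i)) f := by
  have h := aeval_bind₁ (R := ℝ) z (fun i => C (y i) * X none - X (some i)) f
  rw [aeval_eq_eval] at h
  unfold sb
  rw [h]
  simp [aeval_eq_eval]


lemma term_limit {y : σ → ℝ} {M : ℕ → ℝ} {l : ℕ → σ → ℝ} (hM : Tendsto M atTop atTop)
    (hl : ∀ i, Tendsto (fun k => l k i / M k) atTop (𝓝 (y i))) (n : Option σ →₀ ℕ) (D : ℕ)
    (hn : (n.sum fun _ e => e) ≤ D) :
    Tendsto (fun k => (n.prod fun o e => (o.elim (M k) (l k)) ^ e) / M k ^ D) atTop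
      (𝓝 (if (n.sum fun _ e => e) = D then n.some.prod fun i e => y i ^ e else 0)) := by
  have hsum : (n.sum fun _ e => e) = n none + n.some.sum fun _ e => e :=
    Finsupp.sum_option_index n _ (fun _ => rfl) (fun _ _ _ => rfl)
  have hprod : ∀ k, (n.prod fun o e => (o.elim (M k) (l k)) ^ e) =
      M k ^ n none * n.some.prod fun i e => (l k i) ^ e := fun k =>
    Finsupp.prod_option_index n (fun o e => (o.elim (M k) (l k)) ^ e) (fun _ => pow_zero _)
      (fun _ _ _ => pow_add _ _ _)
  have hpos : ∀ᶠ k in atTop, 0 < M k := hM.eventually_gt_atTop 0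
  have heq : ∀ᶠ k in atTop, (n.some.prod fun i e => (l k i / M k) ^ e) *
      (M k ^ (n.sum fun _ e => e) / M k ^ D) =
        (n.prod fun o e => (o.elim (M k) (l k)) ^ e) / M k ^ D := by
    filter_upwards [hpos] with k hk
    have h1 : (n.some.prod fun i e => (l k i / M k) ^ e) =
        (n.some.prod fun i e => (l k i) ^ e) / M k ^ (n.some.sum fun _ e => e) := by
      simp only [Finsupp.prod, Finsupp.sum, div_pow, Finset.prod_div_distrib,
        Finset.prod_pow_eq_pow_sum]
    rw [h1, hprod k, hsum, pow_add]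
    have := hk.ne'
    field_simp
  refine Tendsto.congr' heq ?_
  have h2 : Tendsto (fun k => n.some.prod fun i e => (l k i / M k) ^ e) atTop
      (𝓝 (n.some.prod fun i e => y i ^ e)) := by
    simp only [Finsupp.prod]
    exact tendsto_finsetProd _ fun i _ => (hl i).pow _
  split_ifs with h
  · have h3 : Tendsto (fun k => M k ^ (n.sum fun _ e => e) / M k ^ D) atTop (𝓝 1) := by
      rw [h]
      refine Tendsto.congr' ?_ tendsto_const_nhds
      filter_upwards [hpos] with k hk
      rw [div_self (pow_ne_zero _ hk.ne')]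
    simpa using h2.mul h3
  · have hlt : (n.sum fun _ e => e) < D := lt_of_le_of_ne hn h
    have h3 : Tendsto (fun k => M k ^ (n.sum fun _ e => e) / M k ^ D) atTop (𝓝 0) := by
      have h4 : Tendsto (fun k => (M k ^ (D - n.sum fun _ e => e))⁻¹) atTop (𝓝 0) :=
        ((tendsto_pow_atTop (by omega)).comp hM).inv_tendsto_atTop
      refine Tendsto.congr' ?_ h4
      filter_upwards [hpos] with k hk
      rw [eq_div_iff (pow_ne_zero _ hk.ne'), inv_mul_eq_iff_eq_mul₀ (pow_ne_zero _ hk.ne'),
        ← pow_add]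
      congr 1
      omega
    simpa using h2.mul h3

/-- a rational polynomial in `X₀, X` which vanishes at infinitely many points `(M, l)` with
`l / M → y`, `y` algebraically independent, is zero -/
lemma vanish {y : σ → ℝ} (hy : AlgebraicIndependent ℚ y) (G : MvPolynomial (Option σ) ℚ)
    {M : ℕ → ℝ} {l : ℕ → σ → ℝ} (hM : Tendsto M atTop atTop)
    (hl : ∀ i, Tendsto (fun k => l k i / M k) atTop (𝓝 (y i)))
    (h0 : ∃ᶠ k in atTop, aeval (fun o : Option σ => o.elim (M k) (l k)) G = 0) : G = 0 := by
  classical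
  by_contra hG
  set D := G.totalDegree with hD
  set h : MvPolynomial σ ℚ := ∑ n ∈ G.support.filter (fun n => (n.sum fun _ e => e) = D),
    monomial n.some (G.coeff n) with hh
  have hev : ∀ k, aeval (fun o : Option σ => o.elim (M k) (l k)) G / M k ^ D =
      ∑ n ∈ G.support, ((G.coeff n : ℚ) : ℝ) *
        ((n.prod fun o e => (o.elim (M k) (l k)) ^ e) / M k ^ D) := by
    intro k
    conv_lhs => rw [G.as_sum, map_sum, Finset.sum_div]
    refine Finset.sum_congr rfl fun n _ => ?_
    rw [aeval_monomial, mul_div_assoc]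
    rfl
  have hlim : Tendsto (fun k => aeval (fun o : Option σ => o.elim (M k) (l k)) G / M k ^ D) atTop
      (𝓝 (∑ n ∈ G.support, ((G.coeff n : ℚ) : ℝ) *
        (if (n.sum fun _ e => e) = D then n.some.prod fun i e => y i ^ e else 0))) := by
    simp only [hev]
    refine tendsto_finsetSum _ fun n hn => Tendsto.const_mul _ ?_
    exact term_limit hM hl n D (le_totalDegree hn)
  have hval : (∑ n ∈ G.support, ((G.coeff n : ℚ) : ℝ) *
        (if (n.sum fun _ e => e) = D then n.some.prod fun i e => y i ^ e else 0)) =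
      aeval y h := by
    rw [hh, map_sum, Finset.sum_filter]
    refine Finset.sum_congr rfl fun n _ => ?_
    split_ifs with h1
    · rw [aeval_monomial]
      rfl
    · simp
  rw [hval] at hlim
  -- the polynomial `h` is not zero
  have hne : h ≠ 0 := by
    obtain ⟨n0, hn0, hn0'⟩ := Finset.exists_mem_eq_sup G.support
      (Finset.nonempty_iff_ne_empty.2 fun h => hG (support_eq_empty.1 h))
      (fun s => s.sum fun _ e => e)
    have hdeg : (n0.sum fun _ e => e) = D := by rw [hD]; exact hn0'.symm
    intro hz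
    have h1 : h.coeff n0.some = G.coeff n0 := by
      rw [hh, coeff_sum]
      rw [Finset.sum_eq_single n0]
      · simp
      · intro n hn hne
        rw [Finset.mem_filter] at hn
        rw [coeff_monomial, if_neg]
        intro he
        apply hne
        have h2 : (n.sum fun _ e => e) = n none + n.some.sum fun _ e => e :=
          Finsupp.sum_option_index n _ (fun _ => rfl) (fun _ _ _ => rfl)
        have h3 : (n0.sum fun _ e => e) = n0 none + n0.some.sum fun _ e => e :=
          Finsupp.sum_option_index n0 _ (fun _ => rfl) (fun _ _ _ => rfl)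
        rw [hn.2, he] at h2
        rw [hdeg] at h3
        ext o
        cases o with
        | none => omega
        | some i => rw [← Finsupp.some_apply, ← Finsupp.some_apply, he]
      · intro hn
        exact absurd (Finset.mem_filter.2 ⟨hn0, hdeg⟩) hn
    rw [hz, coeff_zero] at h1
    exact mem_support_iff.1 hn0 h1.symm
  have hL : aeval y h ≠ 0 := fun h1 => hne ((injective_iff_map_eq_zero _).1 hy h h1)
  have hev2 := hlim.eventually_ne hL
  obtain ⟨k, hk1, hk2⟩ := (h0.and_eventually hev2).exists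
  rw [hk1, zero_div] at hk2
  exact hk2 rfl


lemma cm_sb_eq_zero {V : Submodule ℚ ℝ} {y : σ → ℝ} (hy : AlgebraicIndependent ℚ y)
    {f : MvPolynomial σ ℝ} {M : ℕ → ℕ} {l : ℕ → σ → ℤ}
    (hM : Tendsto (fun k => (M k : ℝ)) atTop atTop)
    (hl : ∀ k i, |(M k : ℝ) * y i - l k i| ≤ 1)
    (hf : ∃ᶠ k in atTop, eval (fun i => (M k : ℝ) * y i - l k i) f ∈ V)
    {u : ℝ →ₗ[ℚ] ℚ} (hu : ∀ v ∈ V, u v = 0) : cm u (sb y f) = 0 := by
  refine vanish hy _ (M := fun k => (M k : ℝ)) (l := fun k i => (l k i : ℝ)) hM (fun i => ?_) ?_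
  · -- the ratios tend to `y`
    have h1 : Tendsto (fun k => 1 / (M k : ℝ)) atTop (𝓝 0) := by
      refine (tendsto_inv_atTop_zero.comp hM).congr fun k => ?_
      simp
    rw [tendsto_iff_norm_sub_tendsto_zero]
    refine squeeze_zero' (Eventually.of_forall fun k => norm_nonneg _) ?_ h1
    filter_upwards [hM.eventually_gt_atTop 0] with k hk
    rw [Real.norm_eq_abs, div_sub' hk.ne', abs_div, abs_of_pos hk, abs_sub_comm]
    exact div_le_div_of_nonneg_right (hl k i) hk.le
  · refine hf.mono fun k hk => ?_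
    have h1 : (fun o : Option σ => o.elim (M k : ℝ) (fun i => (l k i : ℝ))) =
        fun o : Option σ => algebraMap ℚ ℝ (o.elim (M k : ℚ) (fun i => (l k i : ℚ))) := by
      funext o
      cases o <;> simp
    have h2 := aeval_algebraMap_apply (R := ℚ) (A := ℚ) ℝ
      (fun o : Option σ => o.elim (M k : ℚ) (fun i => (l k i : ℚ))) (cm u (sb y f))
    rw [h1]
    refine (h2.trans ?_)
    have h3 : aeval (fun o : Option σ => o.elim (M k : ℚ) (fun i => (l k i : ℚ)))
        (cm u (sb y f)) = 0 := by
      rw [aeval_eq_eval, eval_cm, eval_sb]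
      have h4 : (fun i => y i * (((Option.elim (none : Option σ) (M k : ℚ)
          (fun i => (l k i : ℚ)) : ℚ)) : ℝ) -
          ((Option.elim (some i) (M k : ℚ) (fun i => (l k i : ℚ)) : ℚ) : ℝ)) =
          fun i => (M k : ℝ) * y i - l k i := by
        funext i
        simp [mul_comm]
      rw [h4]
      exact hu _ hk
    rw [h3, map_zero]

/-- **The core lemma.** -/
lemma core {V : Submodule ℚ ℝ} {y : σ → ℝ} (hy : AlgebraicIndependent ℚ y)
    {f : MvPolynomial σ ℝ} {M : ℕ → ℕ} {l : ℕ → σ → ℤ}
    (hM : Tendsto (fun k => (M k : ℝ)) atTop atTop)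
    (hl : ∀ k i, |(M k : ℝ) * y i - l k i| ≤ 1)
    (hf : ∃ᶠ k in atTop, eval (fun i => (M k : ℝ) * y i - l k i) f ∈ V) :
    (∀ n, f.coeff n ∈ V) ∧
      ∀ (a : ℚ) (b : σ → ℚ), eval (fun i => (a : ℝ) * y i + b i) f ∈ V := by
  have key : ∀ (u : ℝ →ₗ[ℚ] ℚ), (∀ v ∈ V, u v = 0) → ∀ (a : ℚ) (b : σ → ℚ),
      u (eval (fun i => (a : ℝ) * y i + b i) f) = 0 := by
    intro u hu a b
    have h1 := cm_sb_eq_zero hy hM hl hf hu
    have h2 : eval (fun o : Option σ => o.elim a (fun i => - b i)) (cm u (sb y f)) = 0 := by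
      rw [h1, map_zero]
    rw [eval_cm, eval_sb] at h2
    rw [← h2]
    congr 2
    congr 1
    funext i
    simp
    ring
  constructor
  · intro n
    by_contra hn
    obtain ⟨u, hu, hne⟩ := exists_functional V hn
    apply hne
    have h1 : cm u f = 0 := by
      refine MvPolynomial.funext fun b => ?_
      rw [eval_cm, map_zero]
      have := key u hu 0 b
      simpa using this
    rw [← coeff_cm, h1, coeff_zero]
  · intro a b
    by_contra hn
    obtain ⟨u, hu, hne⟩ := exists_functional V hn
    exact hne (key u hu a b)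

end Pool.Agent.U610.PR
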