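import Pool.Agent.U610.PR.Rec

/-!
One rational subspace for countably many singular jointly invariant measures and for the typical
points of all measures which are conservative for a multiplication.
-/

set_option autoImplicit false

open MeasureTheory Filter Topology Set

namespace Pool.Agent.U610.PR

open MvPolynomial

variable {σ : Type*}

/-- **The space.** -/
theorem exists_space {p q : ℕ} (hp : p.Prime) (hq : 2 ≤ q) (hpq : ¬ p ∣ q)
    (ν : ℕ → Measure UnitAddCircle) (hν : ∀ j, IsProbabilityMeasure (ν j))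
    (hinv : ∀ j, MeasurePreserving (fun x : UnitAddCircle => p • x) (ν j) (ν j) ∧
      MeasurePreserving (fun x : UnitAddCircle => q • x) (ν j) (ν j))
    (hs : ∀ j, ν j ⟂ₘ volume) {C : Set ℝ} (hC : C.Countable) :
    ∃ V W : Submodule ℚ ℝ, C ⊆ W ∧ Countable W ∧ (1 : ℝ) ∈ V ∧ IsSigmaCompact (V : Set ℝ) ∧
      dimH (V : Set ℝ) = 0 ∧ (∀ x ∈ W, x ∈ V → ∃ r : ℚ, x = r) ∧
      ∀ j, ν j {z | ∀ r ∈ V, ((r : ℝ) : UnitAddCircle) ≠ z} = 0 := by
  have hCc : Countable C := hC.to_subtype
  set W : Submodule ℚ ℝ := Submodule.span ℚ (Set.range (fun c : C => (c : ℝ))) with hW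
  have hWc : Countable W := inferInstance
  have hWs : (W : Set ℝ).Countable := Set.countable_coe_iff.1 hWc
  obtain ⟨V, h1, hσ, hdim, hCV, hj⟩ :=
    Pool.Agent.U125.PS.family hp hq hpq ν hν hinv hWs
  refine ⟨V, W, fun x hx => ?_, hWc, h1, hσ, hdim, hCV, fun j => ?_⟩
  · exact Submodule.subset_span ⟨⟨x, hx⟩, rfl⟩
  · obtain ⟨c, hc, hB⟩ := hj j
    have hc0 : c = 0 := hc (hs j)
    have hmeas : MeasurableSet {z : UnitAddCircle | ∀ r ∈ V, ((r : ℝ) : UnitAddCircle) ≠ z} := by
      have h2 : {z : UnitAddCircle | ∀ r ∈ V, ((r : ℝ) : UnitAddCircle) ≠ z} =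
          ((fun r : ℝ => (r : UnitAddCircle)) '' V)ᶜ := by
        ext z
        simp
      rw [h2]
      exact (Pool.Agent.U125.PS.meas_sigma
        (hσ.image (AddCircle.continuous_mk' (1 : ℝ)))).compl
    rw [hB _ hmeas (fun r hr h => h r hr rfl), hc0, zero_mul]

end Pool.Agent.U610.PR
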