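import Pool.Agent.U610.PR.Main

/-!
One variable: the powers of the point, and the transfer from the circle.
-/

set_option autoImplicit false

open MeasureTheory Filter Topology Set

namespace Pool.Agent.U610.PR

open Polynomial (C X)

lemma monom_mem {V : Submodule ℚ ℝ} {y : ℝ} {g : Polynomial ℚ}
    (hg : ∀ a : ℚ, Polynomial.aeval ((a : ℝ) * y) g ∈ V) (i : ℕ) :
    (((g.coeff i : ℚ) : ℝ)) * y ^ i ∈ V := by
  by_contra hcon
  obtain ⟨u, hu, hne⟩ := exists_functional V hcon
  set h : Polynomial ℚ := ∑ k ∈ Finset.range (g.natDegree + 1),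
    Polynomial.monomial k (u (((g.coeff k : ℚ) : ℝ) * y ^ k)) with hh
  have h0 : h = 0 := by
    refine Polynomial.funext fun a => ?_
    rw [Polynomial.eval_zero, ← hu _ (hg a), Polynomial.aeval_eq_sum_range, map_sum, hh,
      Polynomial.eval_finsetSum]
    refine Finset.sum_congr rfl fun k _ => ?_
    rw [Polynomial.eval_monomial]
    have h1 : (g.coeff k) • (((a : ℝ) * y) ^ k) =
        (a ^ k) • ((((g.coeff k : ℚ) : ℝ)) * y ^ k) := by
      rw [Rat.smul_def, Rat.smul_def]
      push_cast
      ring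
    rw [h1, map_smul, smul_eq_mul, mul_comm]
  apply hne
  by_cases hi : i ∈ Finset.range (g.natDegree + 1)
  · have h1 : h.coeff i = u (((g.coeff i : ℚ) : ℝ) * y ^ i) := by
      rw [hh, Polynomial.finsetSum_coeff]
      simp only [Polynomial.coeff_monomial]
      rw [Finset.sum_ite_eq' , if_pos hi]
    rw [← h1, h0, Polynomial.coeff_zero]
  · rw [Finset.mem_range, not_lt] at hi
    rw [Polynomial.coeff_eq_zero_of_natDegree_lt (by omega)]
    simp

lemma pow_mem {V : Submodule ℚ ℝ} (h1 : (1 : ℝ) ∈ V) {y : ℝ} {f : Polynomial ℚ}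
    (hf : ∀ a b : ℚ, Polynomial.aeval ((a : ℝ) * y + b) f ∈ V) {j : ℕ} (hj : j ≤ f.natDegree) :
    y ^ j ∈ V := by
  by_cases hf0 : f = 0
  · rw [hf0, Polynomial.natDegree_zero] at hj
    rw [Nat.le_zero.1 hj, pow_zero]
    exact h1
  have hH : Polynomial.hasseDeriv j f ≠ 0 := by
    intro h
    have h2 := Polynomial.hasseDeriv_coeff j f (f.natDegree - j)
    rw [h, Polynomial.coeff_zero, Nat.sub_add_cancel hj] at h2
    have h3 : ((f.natDegree.choose j : ℕ) : ℚ) ≠ 0 :=
      Nat.cast_ne_zero.2 (Nat.choose_pos hj).ne'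
    have h4 : f.coeff f.natDegree ≠ 0 := by
      rw [Polynomial.coeff_natDegree]
      exact Polynomial.leadingCoeff_ne_zero.2 hf0
    exact mul_ne_zero h3 h4 h2.symm
  obtain ⟨b, hb⟩ : ∃ b : ℚ, (Polynomial.hasseDeriv j f).eval b ≠ 0 := by
    by_contra hcon
    push Not at hcon
    exact hH (Polynomial.funext fun b => by rw [hcon b, Polynomial.eval_zero])
  rw [← Polynomial.taylor_coeff] at hb
  have h2 := monom_mem (V := V) (y := y) (g := Polynomial.taylor b f) (fun a => by
    rw [Polynomial.taylor_apply, Polynomial.aeval_comp]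
    have := hf a b
    simpa using this) j
  have h3 := V.smul_mem ((Polynomial.taylor b f).coeff j)⁻¹ h2
  rw [Rat.smul_def] at h3
  have h4 : ((((Polynomial.taylor b f).coeff j)⁻¹ : ℚ) : ℝ) *
      ((((Polynomial.taylor b f).coeff j : ℚ) : ℝ) * y ^ j) = y ^ j := by
    rw [← mul_assoc, ← Rat.cast_mul, inv_mul_cancel₀ hb, Rat.cast_one, one_mul]
  rw [h4] at h3
  exact h3

/-- the circle as a one-dimensional torus -/
def kp (x : UnitAddCircle) : Unit → UnitAddCircle := fun _ => x

lemma meas_kp : Measurable kp := measurable_pi_lambda _ fun _ => measurable_id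

lemma iter_kp (m k : ℕ) (x : UnitAddCircle) :
    (fun x : Unit → UnitAddCircle => m • x)^[k] (kp x) =
      kp ((fun x : UnitAddCircle => m • x)^[k] x) := by
  induction k generalizing x with
  | zero => rfl
  | succ k ih =>
    rw [Function.iterate_succ_apply, Function.iterate_succ_apply, ← ih]
    rfl

lemma conservative_kp {m : ℕ} {μ : Measure UnitAddCircle}
    (hcons : Conservative (fun x : UnitAddCircle => m • x) μ) :
    Conservative (fun x : Unit → UnitAddCircle => m • x) (μ.map kp) := by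
  have hm : Measurable (fun x : Unit → UnitAddCircle => m • x) :=
    measurable_pi_lambda _ fun i => (hcons.measurable.comp (measurable_pi_apply i))
  refine ⟨⟨hm, ?_⟩, fun s hs h0 => ?_⟩
  · rw [Measure.map_map hm meas_kp]
    have h1 : (fun x : Unit → UnitAddCircle => m • x) ∘ kp =
        kp ∘ (fun x : UnitAddCircle => m • x) := rfl
    rw [h1, ← Measure.map_map meas_kp hcons.measurable]
    exact hcons.absolutelyContinuous.map meas_kp
  · rw [Measure.map_apply meas_kp hs] at h0
    obtain ⟨x, hx, k, hk, hxk⟩ := hcons.exists_mem_iterate_mem' (meas_kp hs) h0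
    refine ⟨kp x, hx, k, hk, ?_⟩
    rw [iter_kp]
    exact hxk

/-- almost every point of an atomless measure is transcendental -/
lemma ae_transcendental {μ : Measure UnitAddCircle} (hna : ∀ x, μ {x} = 0) :
    ∀ᵐ x ∂μ, ∀ y : ℝ, ((y : ℝ) : UnitAddCircle) = x → Transcendental ℚ y := by
  have hc : {x : ℝ | IsAlgebraic ℚ x}.Countable := Algebraic.countable ℚ ℝ
  have h1 : μ ((fun r : ℝ => (r : UnitAddCircle)) '' {x : ℝ | IsAlgebraic ℚ x}) = 0 := by
    have h2 : ((fun r : ℝ => (r : UnitAddCircle)) '' {x : ℝ | IsAlgebraic ℚ x}).Countable :=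
      hc.image _
    have h3 := (measure_biUnion_null_iff (μ := μ) h2 (s := fun x => {x})).2 fun x _ => hna x
    rw [Set.biUnion_of_singleton] at h3
    exact h3
  rw [ae_iff]
  refine measure_mono_null ?_ h1
  intro x hx
  have hx' : ¬ ∀ y : ℝ, ((y : ℝ) : UnitAddCircle) = x → Transcendental ℚ y := hx
  push Not at hx'
  obtain ⟨y, hy, hy2⟩ := hx'
  exact ⟨y, by simpa [Transcendental] using hy2, hy⟩

/-- a real polynomial in one variable as a polynomial in the variable `()` -/
noncomputable def tomv (f : Polynomial ℝ) : MvPolynomial Unit ℝ :=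
  ∑ j ∈ f.support, MvPolynomial.monomial (Finsupp.single () j) (f.coeff j)

lemma coeff_tomv (f : Polynomial ℝ) (n : Unit →₀ ℕ) :
    (tomv f).coeff n = f.coeff (n ()) := by
  classical
  unfold tomv
  rw [MvPolynomial.coeff_sum]
  simp only [MvPolynomial.coeff_monomial]
  have h : ∀ j, (Finsupp.single () j = n) ↔ (j = n ()) := by
    intro j
    constructor
    · rintro rfl
      simp
    · rintro rfl
      ext
      simp
  simp only [h]
  rw [Finset.sum_ite_eq']
  split_ifs with h1
  · rfl
  · exact (Polynomial.notMem_support_iff.1 h1).symm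

lemma eval_tomv (f : Polynomial ℝ) (z : Unit → ℝ) :
    MvPolynomial.eval z (tomv f) = f.eval (z ()) := by
  unfold tomv
  rw [map_sum, Polynomial.eval_eq_sum, Polynomial.sum]
  refine Finset.sum_congr rfl fun j _ => ?_
  rw [MvPolynomial.eval_monomial]
  simp

/-- **One variable.** -/
theorem ae_values_one {V W : Submodule ℚ ℝ} (h1V : (1 : ℝ) ∈ V)
    (hV : MeasurableSet (V : Set ℝ)) [Countable W] (hVW : ∀ x ∈ W, x ∈ V → ∃ r : ℚ, x = r)
    {m : ℕ} (hm : 2 ≤ m) {μ : Measure UnitAddCircle}
    (hcons : Conservative (fun x : UnitAddCircle => m • x) μ) (hna : ∀ x, μ {x} = 0) :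
    ∀ᵐ x ∂μ, ∀ y : ℝ, ((y : ℝ) : UnitAddCircle) = x →
      ∀ f : Polynomial ℝ, (∀ n, f.coeff n ∈ W) → f.eval y ∈ V →
        (∀ n, ∃ r : ℚ, f.coeff n = r) ∧ ∀ j ≤ f.natDegree, y ^ j ∈ V := by
  have hind : ∀ᵐ x ∂(μ.map kp), ∀ y : Unit → ℝ, (∀ i, ((y i : ℝ) : UnitAddCircle) = x i) →
      AlgebraicIndependent ℚ y := by
    have h0 := ae_transcendental hna
    rw [ae_iff] at h0 ⊢
    -- the complement is contained in a measurable null set
    obtain ⟨t, ht1, ht2, ht3⟩ := exists_measurable_superset_of_null h0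
    have hmt : MeasurableSet {x : Unit → UnitAddCircle | x () ∈ t} := measurable_pi_apply () ht2
    have h3 : (μ.map kp) {x | x () ∈ t} = 0 := by
      rw [Measure.map_apply meas_kp hmt]
      exact ht3
    refine measure_mono_null ?_ h3
    intro x hx
    refine ht1 ?_
    intro hall
    apply hx
    intro y hy
    rw [algebraicIndependent_unique_type_iff]
    exact hall _ (hy ())
  have h1 := ae_values (σ := Unit) hV hm (conservative_kp hcons) hind (W := W)
  have h2 := ae_of_ae_map meas_kp.aemeasurable h1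
  filter_upwards [h2] with x hx y hy f hf hv
  obtain ⟨h3, h4⟩ := hx (fun _ => y) (fun _ => hy) (tomv f)
    (fun n => by rw [coeff_tomv]; exact hf _) (by rw [eval_tomv]; exact hv)
  have h5 : ∀ n, ∃ r : ℚ, f.coeff n = r := fun n => by
    refine hVW _ (hf n) ?_
    have := h3 (Finsupp.single () n)
    rw [coeff_tomv] at this
    simpa using this
  refine ⟨h5, ?_⟩
  choose r hr using h5
  -- the rational polynomial
  have hfg : ∃ g : Polynomial ℚ, g.map (algebraMap ℚ ℝ) = f := by
    have h6 : f ∈ Polynomial.lifts (algebraMap ℚ ℝ) := by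
      rw [Polynomial.lifts_iff_coeff_lifts]
      intro n
      exact ⟨r n, (hr n).symm⟩
    exact (Polynomial.mem_lifts _).1 h6
  obtain ⟨g, hg⟩ := hfg
  have hdeg : f.natDegree = g.natDegree := by
    rw [← hg, Polynomial.natDegree_map]
  intro j hj
  refine pow_mem h1V (f := g) (fun a b => ?_) (by rw [← hdeg]; exact hj)
  have h7 := h4 a (fun _ => b)
  rw [eval_tomv, ← hg, Polynomial.eval_map] at h7
  exact h7

end Pool.Agent.U610.PR
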