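import Pool.Agent.U610.PR.Alg
import Pool.Agent.U610.AR.Key
import Pool.Agent.U125.PS.Final

/-!
Poincaré recurrence for `x ↦ m x` on a torus and the values of real polynomials in a rational
subspace of the line.
-/

set_option autoImplicit false

open MeasureTheory Filter Topology Set

namespace Pool.Agent.U610.PR

open MvPolynomial
open Pool.Agent.U610.AR (rp meas_rp rp_nonneg rp_lt_one coe_rp rp_smul)

variable {σ τ : Type*}

/-- rational substitutions do not change the rational space of the coefficients -/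
lemma cf_bind {W : Submodule ℚ ℝ} {f : MvPolynomial σ ℝ} (hf : ∀ n, f.coeff n ∈ W)
    (g : σ → MvPolynomial τ ℚ) (n : τ →₀ ℕ) :
    (bind₁ (fun i => map (algebraMap ℚ ℝ) (g i)) f).coeff n ∈ W := by
  rw [f.as_sum, map_sum, coeff_sum]
  refine W.sum_mem fun s _ => ?_
  rw [bind₁_monomial, coeff_C_mul]
  have h : (∏ i ∈ s.support, map (algebraMap ℚ ℝ) (g i) ^ s i) =
      map (algebraMap ℚ ℝ) (∏ i ∈ s.support, g i ^ s i) := by
    rw [map_prod]
    simp
  rw [h, coeff_map, mul_comm]
  have h2 := W.smul_mem (coeff n (∏ i ∈ s.support, g i ^ s i)) (hf s)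
  rw [Rat.smul_def] at h2
  exact h2

/-- the polynomial `f (X + n)` -/
noncomputable def sh (c : σ → ℚ) (f : MvPolynomial σ ℝ) : MvPolynomial σ ℝ :=
  bind₁ (fun i => map (algebraMap ℚ ℝ) (X i + C (c i))) f

lemma eval_sh (c : σ → ℚ) (f : MvPolynomial σ ℝ) (z : σ → ℝ) :
    eval z (sh c f) = eval (fun i => z i + c i) f := by
  have h := aeval_bind₁ (R := ℝ) z (fun i => map (algebraMap ℚ ℝ) (X i + C (c i))) f
  rw [aeval_eq_eval] at h
  unfold sh
  rw [h]
  simp [aeval_eq_eval]

lemma sh_sh (c : σ → ℚ) (f : MvPolynomial σ ℝ) : sh (fun i => - c i) (sh c f) = f := by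
  refine MvPolynomial.funext fun z => ?_
  rw [eval_sh, eval_sh]
  congr 1
  congr 1
  funext i
  push_cast
  ring

lemma countable_cf [Countable σ] (W : Submodule ℚ ℝ) [Countable W] :
    {f : MvPolynomial σ ℝ | ∀ n, f.coeff n ∈ W}.Countable := by
  classical
  refine (Set.countable_range (fun g : (σ →₀ ℕ) →₀ W =>
    g.sum fun n c => (monomial n (c : ℝ) : MvPolynomial σ ℝ))).mono ?_
  intro f hf
  refine ⟨Finsupp.onFinset f.support (fun n => ⟨f.coeff n, hf n⟩) (fun n hn => ?_), ?_⟩
  · rw [mem_support_iff]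
    intro h0
    apply hn
    ext
    exact h0
  · have h := Finsupp.onFinset_sum (s := f.support) (f := fun n => (⟨f.coeff n, hf n⟩ : W))
      (g := fun n c => (monomial n ((c : W) : ℝ) : MvPolynomial σ ℝ)) (fun n hn => by
        rw [mem_support_iff]
        intro h0
        apply hn
        ext
        exact h0) (fun n => by simp)
    refine h.trans ?_
    exact f.support_sum_monomial_coeff

lemma meas_eval [Countable σ] (f : MvPolynomial σ ℝ) :
    Measurable (fun x : σ → UnitAddCircle => eval (fun i => rp (x i)) f) := by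
  simp only [eval_eq]
  refine Finset.measurable_sum _ fun n _ => ?_
  refine Measurable.const_mul ?_ _
  refine Finset.measurable_prod _ fun i _ => ?_
  exact (meas_rp.comp (measurable_pi_apply i)).pow_const _

lemma iter_smul (m k : ℕ) (x : σ → UnitAddCircle) :
    (fun x : σ → UnitAddCircle => m • x)^[k] x = m ^ k • x := by
  induction k generalizing x with
  | zero => simp
  | succ k ih =>
    rw [Function.iterate_succ_apply, ih, pow_succ, mul_smul]

/-- **Recurrence.** -/
theorem ae_values [Countable σ] {V W : Submodule ℚ ℝ} (hV : MeasurableSet (V : Set ℝ))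
    [Countable W] {m : ℕ} (hm : 2 ≤ m) {μ : Measure (σ → UnitAddCircle)}
    (hcons : Conservative (fun x : σ → UnitAddCircle => m • x) μ)
    (hind : ∀ᵐ x ∂μ, ∀ y : σ → ℝ, (∀ i, ((y i : ℝ) : UnitAddCircle) = x i) →
      AlgebraicIndependent ℚ y) :
    ∀ᵐ x ∂μ, ∀ y : σ → ℝ, (∀ i, ((y i : ℝ) : UnitAddCircle) = x i) →
      ∀ f : MvPolynomial σ ℝ, (∀ n, f.coeff n ∈ W) → eval y f ∈ V →
        (∀ n, f.coeff n ∈ V) ∧
          ∀ (a : ℚ) (b : σ → ℚ), eval (fun i => (a : ℝ) * y i + b i) f ∈ V := by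
  have hE : ∀ f : MvPolynomial σ ℝ,
      MeasurableSet {x : σ → UnitAddCircle | eval (fun i => rp (x i)) f ∈ V} := fun f =>
    meas_eval f hV
  have h1 : ∀ᵐ x ∂μ, ∀ f ∈ {f : MvPolynomial σ ℝ | ∀ n, f.coeff n ∈ W},
      x ∈ {x : σ → UnitAddCircle | eval (fun i => rp (x i)) f ∈ V} →
        ∃ᶠ k in atTop, (fun x : σ → UnitAddCircle => m • x)^[k] x ∈
          {x : σ → UnitAddCircle | eval (fun i => rp (x i)) f ∈ V} :=
    (ae_ball_iff (countable_cf W)).2 fun f _ =>
      hcons.ae_mem_imp_frequently_image_mem (hE f).nullMeasurableSet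
  filter_upwards [h1, hind] with x hx hi y hy f hf hv
  have hn : ∀ i, ∃ n : ℤ, y i = rp (x i) + n := by
    intro i
    have h2 : ((y i - rp (x i) : ℝ) : UnitAddCircle) = 0 := by
      rw [AddCircle.coe_sub, hy i, coe_rp, sub_self]
    obtain ⟨n, hn⟩ := (AddCircle.coe_eq_zero_iff (1 : ℝ)).1 h2
    refine ⟨n, ?_⟩
    rw [zsmul_eq_mul, mul_one] at hn
    linarith
  choose n hn using hn
  set c : σ → ℚ := fun i => (n i : ℚ) with hc
  have hy0 : AlgebraicIndependent ℚ (fun i => rp (x i)) := hi _ fun i => coe_rp _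
  have hg : ∀ s, (sh c f).coeff s ∈ W := cf_bind hf _
  have hgv : eval (fun i => rp (x i)) (sh c f) ∈ V := by
    rw [eval_sh]
    have : (fun i => rp (x i) + ((c i : ℚ) : ℝ)) = y := by
      funext i
      rw [hn i, hc]
      simp
    rw [this]
    exact hv
  have hfreq := hx _ hg hgv
  obtain ⟨h2, h3⟩ := core (V := V) hy0 (f := sh c f) (M := fun k => m ^ k)
    (l := fun k i => ⌊((m ^ k : ℕ) : ℝ) * rp (x i)⌋) (by
      have h4 : Tendsto (fun k : ℕ => (m : ℝ) ^ k) atTop atTop :=
        tendsto_pow_atTop_atTop_of_one_lt (by exact_mod_cast (by omega : 1 < m))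
      refine h4.congr fun k => ?_
      push_cast
      rfl) (by
      intro k i
      have h4 := Int.floor_le (((m ^ k : ℕ) : ℝ) * rp (x i))
      have h5 := Int.lt_floor_add_one (((m ^ k : ℕ) : ℝ) * rp (x i))
      rw [abs_le]
      constructor <;> linarith) (by
      refine hfreq.mono fun k hk => ?_
      rw [iter_smul] at hk
      have h4 : (fun i => rp ((m ^ k • x) i)) =
          fun i => ((m ^ k : ℕ) : ℝ) * rp (x i) - ⌊((m ^ k : ℕ) : ℝ) * rp (x i)⌋ := by
        funext i
        have h5 := rp_smul (m ^ k) (x i)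
        rw [Pi.smul_apply]
        linarith
      rw [h4] at hk
      exact hk)
  constructor
  · intro s
    rw [← sh_sh c f]
    exact cf_bind h2 _ s
  · intro a b
    have h4 := h3 a (fun i => a * c i + b i - c i)
    rw [eval_sh] at h4
    have h5 : (fun i => ((a : ℝ) * rp (x i) + ((a * c i + b i - c i : ℚ) : ℝ)) + ((c i : ℚ) : ℝ)) =
        fun i => (a : ℝ) * y i + b i := by
      funext i
      rw [hn i, hc]
      push_cast
      ring
    rw [h5] at h4
    exact h4

end Pool.Agent.U610.PR
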