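import Pool.Agent.U610.PR.OneVar

/-!
Singular images.
-/

set_option autoImplicit false

open MeasureTheory Filter Topology Set

namespace Pool.Agent.U610.PR

lemma mem_of_coe_eq {V : Submodule ℚ ℝ} (h1 : (1 : ℝ) ∈ V) {r s : ℝ} (hr : r ∈ V)
    (h : ((r : ℝ) : UnitAddCircle) = (s : UnitAddCircle)) : s ∈ V := by
  have h2 : ((s - r : ℝ) : UnitAddCircle) = 0 := by
    rw [AddCircle.coe_sub, h, sub_self]
  obtain ⟨n, hn⟩ := (AddCircle.coe_eq_zero_iff (1 : ℝ)).1 h2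
  have h3 : s = r + (n : ℚ) • (1 : ℝ) := by
    rw [Rat.smul_def]
    rw [zsmul_eq_mul] at hn
    push_cast
    linarith
  rw [h3]
  exact V.add_mem hr (V.smul_mem _ h1)

/-- a map which avoids `V` almost everywhere has an image singular to the measures on `V` -/
lemma singular_of_avoid {Ω : Type*} [MeasurableSpace Ω] {P : Measure Ω} {ν : Measure UnitAddCircle}
    {V : Submodule ℚ ℝ} (h1 : (1 : ℝ) ∈ V) (hσ : IsSigmaCompact (V : Set ℝ))
    (hν : ν {z | ∀ r ∈ V, ((r : ℝ) : UnitAddCircle) ≠ z} = 0) {g : Ω → ℝ} (hg : Measurable g)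
    (h : ∀ᵐ ω ∂P, g ω ∉ V) : (P.map fun ω => ((g ω : ℝ) : UnitAddCircle)) ⟂ₘ ν := by
  have hA : {z : UnitAddCircle | ∀ r ∈ V, ((r : ℝ) : UnitAddCircle) ≠ z} =
      ((fun r : ℝ => (r : UnitAddCircle)) '' V)ᶜ := by
    ext z
    simp
  have hmeas : MeasurableSet ((fun r : ℝ => (r : UnitAddCircle)) '' V) :=
    Pool.Agent.U125.PS.meas_sigma (hσ.image (AddCircle.continuous_mk' (1 : ℝ)))
  have hgm : Measurable fun ω => ((g ω : ℝ) : UnitAddCircle) :=
    Pool.Agent.U610.AR.meas_coe.comp hg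
  refine ⟨(fun r : ℝ => (r : UnitAddCircle)) '' V, hmeas, ?_, ?_⟩
  · rw [Measure.map_apply hgm hmeas]
    rw [ae_iff] at h
    refine measure_mono_null ?_ h
    rintro ω ⟨r, hr, hrω⟩
    show ¬ (g ω ∉ V)
    exact fun h2 => h2 (mem_of_coe_eq h1 hr hrω)
  · rw [← hA]
    exact hν

/-- **Singular images, several variables.** -/
theorem singular_image {ι : Type*} [Countable ι] {p q : ℕ} (hp : p.Prime) (hq : 2 ≤ q)
    (hpq : ¬ p ∣ q) {ν : Measure UnitAddCircle} (hν : IsProbabilityMeasure ν)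
    (hνp : MeasurePreserving (fun x : UnitAddCircle => p • x) ν ν)
    (hνq : MeasurePreserving (fun x : UnitAddCircle => q • x) ν ν) (hs : ν ⟂ₘ volume)
    {m : ℕ} (hm : 2 ≤ m) {μ : Measure (ι → UnitAddCircle)}
    (hcons : Conservative (fun x : ι → UnitAddCircle => m • x) μ)
    (hind : ∀ᵐ x ∂μ, ∀ y : ι → ℝ, (∀ i, ((y i : ℝ) : UnitAddCircle) = x i) →
      AlgebraicIndependent ℚ y)
    {P : Measure (ι → ℝ)} (hP : P.map (fun y i => ((y i : ℝ) : UnitAddCircle)) ≪ μ)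
    {f : MvPolynomial ι ℝ} (hf : ∃ n, Irrational (f.coeff n)) :
    (P.map fun y => ((MvPolynomial.eval y f : ℝ) : UnitAddCircle)) ⟂ₘ ν := by
  obtain ⟨V, W, hCW, hWc, h1, hσ, hdim, hWV, hνV⟩ := exists_space hp hq hpq (fun _ : ℕ => ν)
    (fun _ => hν) (fun _ => ⟨hνp, hνq⟩) (fun _ => hs)
    (C := Set.range fun n : ι →₀ ℕ => f.coeff n) (Set.countable_range _)
  have hmeas : Measurable fun y : ι → ℝ => MvPolynomial.eval y f := by
    simp only [MvPolynomial.eval_eq]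
    refine Finset.measurable_sum _ fun n _ => ?_
    refine Measurable.const_mul ?_ _
    refine Finset.measurable_prod _ fun i _ => ?_
    exact (measurable_pi_apply i).pow_const _
  refine singular_of_avoid h1 hσ (hνV 0) hmeas ?_
  have h2 := ae_values (σ := ι) (W := W) (Pool.Agent.U125.PS.meas_sigma hσ) hm hcons hind
  have h3 := hP.ae_le h2
  have hπ : Measurable fun (y : ι → ℝ) i => ((y i : ℝ) : UnitAddCircle) :=
    measurable_pi_lambda _ fun i => Pool.Agent.U610.AR.meas_coe.comp (measurable_pi_apply i)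
  have h4 := ae_of_ae_map hπ.aemeasurable h3
  filter_upwards [h4] with y hy hv
  obtain ⟨h5, -⟩ := hy y (fun _ => rfl) f (fun n => hCW ⟨n, rfl⟩) hv
  obtain ⟨n, hn⟩ := hf
  obtain ⟨r, hr⟩ := hWV _ (hCW ⟨n, rfl⟩) (h5 n)
  exact hn ⟨r, hr.symm⟩

/-- **Singular images, one variable.** -/
theorem singular_image_one {p q : ℕ} (hp : p.Prime) (hq : 2 ≤ q)
    (hpq : ¬ p ∣ q) {ν : Measure UnitAddCircle} (hν : IsProbabilityMeasure ν)
    (hνp : MeasurePreserving (fun x : UnitAddCircle => p • x) ν ν)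
    (hνq : MeasurePreserving (fun x : UnitAddCircle => q • x) ν ν) (hs : ν ⟂ₘ volume)
    {m : ℕ} (hm : 2 ≤ m) {μ : Measure UnitAddCircle}
    (hcons : Conservative (fun x : UnitAddCircle => m • x) μ) (hna : ∀ x, μ {x} = 0)
    {P : Measure ℝ} (hP : P.map (fun y : ℝ => (y : UnitAddCircle)) ≪ μ)
    {f : Polynomial ℝ} (hf : ∃ n, Irrational (f.coeff n)) :
    (P.map fun y => ((f.eval y : ℝ) : UnitAddCircle)) ⟂ₘ ν := by
  obtain ⟨V, W, hCW, hWc, h1, hσ, hdim, hWV, hνV⟩ := exists_space hp hq hpq (fun _ : ℕ => ν)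
    (fun _ => hν) (fun _ => ⟨hνp, hνq⟩) (fun _ => hs)
    (C := Set.range fun n : ℕ => f.coeff n) (Set.countable_range _)
  refine singular_of_avoid h1 hσ (hνV 0) f.continuous.measurable ?_
  have h2 := ae_values_one (W := W) h1 (Pool.Agent.U125.PS.meas_sigma hσ) hWV hm hcons hna
  have h3 := hP.ae_le h2
  have h4 := ae_of_ae_map Pool.Agent.U610.AR.meas_coe.aemeasurable h3
  filter_upwards [h4] with y hy hv
  obtain ⟨h5, -⟩ := hy y rfl f (fun n => hCW ⟨n, rfl⟩) hv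
  obtain ⟨n, hn⟩ := hf
  obtain ⟨r, hr⟩ := h5 n
  exact hn ⟨r, hr.symm⟩

end Pool.Agent.U610.PR
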